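import Pool.Agent.H56.G3.TR

/-!
# Row RB (MP_c59857_nt, theorem (G), section 3b): basic bounds for the functional and the energy
-/

set_option autoImplicit false

namespace Pool.Agent.H52.G3

open Finset Pool.Agent.H6.N4D Pool.Agent.H93.EB Pool.Agent.H93.GS Pool.Agent.H56.G3

private lemma rb_card (q N n : ℕ) (hq : 1 ≤ q) :
    ((((Ioc n (n + N)).filter (fun m => q ∣ m)).card : ℕ) : ℝ) ≤ N / q + 1 := by
  have hq0 : 0 < q := hq
  have hqr : (0 : ℝ) < q := by exact_mod_cast hq0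
  have h1 : ((Ioc n (n + N)).filter (fun m => q ∣ m)).card ≤
      (Ioc (n / q) ((n + N) / q)).card := by
    apply Finset.card_le_card_of_injOn (fun m => m / q)
    · intro m hm
      have hm' := Finset.mem_filter.mp (Finset.mem_coe.mp hm)
      obtain ⟨hm1, t, rfl⟩ := hm'
      rw [Finset.mem_Ioc] at hm1
      have ht : q * t / q = t := Nat.mul_div_cancel_left t hq0
      simp only [Finset.coe_Ioc, Set.mem_Ioc, ht]
      constructor
      · rw [Nat.div_lt_iff_lt_mul hq0, mul_comm]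
        exact hm1.1
      · rw [Nat.le_div_iff_mul_le hq0, mul_comm]
        exact hm1.2
    · intro a ha b hb hab
      have ha' := (Finset.mem_filter.mp (Finset.mem_coe.mp ha)).2
      have hb' := (Finset.mem_filter.mp (Finset.mem_coe.mp hb)).2
      have h2 : a / q = b / q := hab
      rw [← Nat.div_mul_cancel ha', ← Nat.div_mul_cancel hb', h2]
  rw [Nat.card_Ioc] at h1
  have h2 : (((n + N) / q : ℕ) : ℝ) ≤ ((n + N : ℕ) : ℝ) / q := Nat.cast_div_le
  have h3 : ((n : ℕ) : ℝ) / q < ((n / q : ℕ) : ℝ) + 1 := by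
    rw [div_lt_iff₀ hqr]
    have h8 := Nat.div_add_mod n q
    have h9 := Nat.mod_lt n hq0
    have h4 : n < (n / q + 1) * q := by
      calc n = q * (n / q) + n % q := h8.symm
        _ < q * (n / q) + q := by omega
        _ = (n / q + 1) * q := by ring
    exact_mod_cast h4
  have h5 : n / q ≤ (n + N) / q := Nat.div_le_div_right (Nat.le_add_right n N)
  have h6 : ((((Ioc n (n + N)).filter (fun m => q ∣ m)).card : ℕ) : ℝ) ≤
      (((n + N) / q : ℕ) : ℝ) - ((n / q : ℕ) : ℝ) := by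
    rw [← Nat.cast_sub h5]
    exact_mod_cast h1
  have h7 : ((n + N : ℕ) : ℝ) / q = (n : ℝ) / q + N / q := by
    push_cast
    rw [add_div]
  rw [h7] at h2
  linarith

private lemma rb_f (g : Ex) (m : ℕ) : ‖g.f m‖ ≤ g.nm := by
  unfold Ex.f Ex.nm
  calc ‖∑ i ∈ range g.k, g.c i * ee (g.a i * m)‖
      ≤ ∑ i ∈ range g.k, ‖g.c i * ee (g.a i * m)‖ := norm_sum_le _ _
    _ = ∑ i ∈ range g.k, ‖g.c i‖ := by
        refine Finset.sum_congr rfl (fun i _ => ?_)
        rw [norm_mul, norm_ee, mul_one]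

private lemma rb_nm (g : Ex) : 0 ≤ g.nm := by
  unfold Ex.nm
  exact Finset.sum_nonneg (fun i _ => norm_nonneg _)

private lemma rb_jj (lam : ℕ → ℝ) (hB : B1 lam) (g : Ex) (m : ℕ) : jj lam g m ≤ 1 := by
  unfold jj
  have h1 : (g.f m).re ^ 2 ≤ ‖g.f m‖ ^ 2 := by
    have := Complex.abs_re_le_norm (g.f m)
    rw [← sq_abs (g.f m).re]
    exact pow_le_pow_left₀ (abs_nonneg _) this 2
  have h2 : lam m ^ 2 ≤ 1 := by
    rw [← sq_abs]
    exact pow_le_one₀ (abs_nonneg _) (hB m)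
  nlinarith [sq_nonneg (lam m - (g.f m).re)]

private lemma rb_J (th : ℝ) (lam : ℕ → ℝ) (q N n : ℕ) (hB : B1 lam) (hq : 1 ≤ q)
    (hN : 1 ≤ N) (g : Ex) : J th lam q N n g ≤ (1 + q / N) - 2 * th * g.nm := by
  have hNr : (0 : ℝ) < N := by exact_mod_cast hN
  have hqr : (0 : ℝ) < q := by exact_mod_cast hq
  unfold J ar
  have h1 : ∑ m ∈ (Ioc n (n + N)).filter (fun m => q ∣ m),
      (2 * lam m * (g.f m).re - ‖g.f m‖ ^ 2) ≤ (N : ℝ) / q + 1 := by
    calc ∑ m ∈ (Ioc n (n + N)).filter (fun m => q ∣ m),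
        (2 * lam m * (g.f m).re - ‖g.f m‖ ^ 2)
        ≤ ∑ m ∈ (Ioc n (n + N)).filter (fun m => q ∣ m), (1 : ℝ) :=
          Finset.sum_le_sum (fun m _ => rb_jj lam hB g m)
      _ = ((((Ioc n (n + N)).filter (fun m => q ∣ m)).card : ℕ) : ℝ) := by simp
      _ ≤ (N : ℝ) / q + 1 := rb_card q N n hq
  have h2 : (∑ m ∈ (Ioc n (n + N)).filter (fun m => q ∣ m),
      (2 * lam m * (g.f m).re - ‖g.f m‖ ^ 2)) * (q : ℝ) / N ≤ ((N : ℝ) / q + 1) * q / N := by
    apply div_le_div_of_nonneg_right _ hNr.le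
    exact mul_le_mul_of_nonneg_right h1 hqr.le
  have h3 : ((N : ℝ) / q + 1) * q / N = 1 + q / N := by
    field_simp
  rw [h3] at h2
  linarith

private lemma rb_zero (th : ℝ) (lam : ℕ → ℝ) (q N n : ℕ) :
    J th lam q N n ⟨0, fun _ => 0, fun _ => 0⟩ = 0 := by
  simp [J, ar, Ex.f, Ex.nm]

theorem pf_RB : T_RB := by
  intro th lam q N n hth hB hq hN
  have hNr : (0 : ℝ) < N := by exact_mod_cast hN
  have hub : ∀ g, J th lam q N n g ≤ 1 + q / N := by
    intro g
    have h1 := rb_J th lam q N n hB hq hN g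
    have h2 : 0 ≤ 2 * th * g.nm := mul_nonneg (by linarith) (rb_nm g)
    linarith
  have hbdd : BddAbove (Set.range (J th lam q N n)) := by
    refine ⟨1 + q / N, ?_⟩
    rintro x ⟨g, rfl⟩
    exact hub g
  have hne : Nonempty Ex := ⟨⟨0, fun _ => 0, fun _ => 0⟩⟩
  have hE0 : 0 ≤ En th lam q N n := by
    have h := le_ciSup hbdd ⟨0, fun _ => 0, fun _ => 0⟩
    rw [rb_zero] at h
    exact h
  refine ⟨hbdd, hE0, ciSup_le hub, ?_, ?_, ?_, ?_⟩
  · intro g
    unfold df
    have h : J th lam q N n g ≤ En th lam q N n := le_ciSup hbdd g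
    linarith
  · intro ε hε
    have h1 : En th lam q N n - ε < ⨆ g : Ex, J th lam q N n g := by
      change En th lam q N n - ε < En th lam q N n
      linarith
    obtain ⟨g, hg⟩ := exists_lt_of_lt_ciSup h1
    refine ⟨g, ?_, ?_⟩
    · unfold df
      linarith
    · linarith
  · intro g hqN hJ
    have h1 := rb_J th lam q N n hB hq hN g
    have h2 : (q : ℝ) / N ≤ 1 := by
      rw [div_le_one hNr]
      exact_mod_cast hqN
    rw [le_div_iff₀ hth]
    nlinarith
  · intro g m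
    have hf := rb_f g m
    refine ⟨hf, ?_⟩
    unfold jj
    have h1 : |(g.f m).re| ≤ g.nm := (Complex.abs_re_le_norm _).trans hf
    have h2 : |2 * lam m * (g.f m).re| ≤ 2 * g.nm := by
      rw [abs_mul, abs_mul, abs_of_pos (by norm_num : (0 : ℝ) < 2)]
      calc 2 * |lam m| * |(g.f m).re| ≤ 2 * 1 * g.nm := by
            apply mul_le_mul _ h1 (abs_nonneg _) (by norm_num)
            exact mul_le_mul_of_nonneg_left (hB m) (by norm_num)
        _ = 2 * g.nm := by ring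
    have h3 : ‖g.f m‖ ^ 2 ≤ g.nm ^ 2 := pow_le_pow_left₀ (norm_nonneg _) hf 2
    have h4 : 0 ≤ ‖g.f m‖ ^ 2 := by positivity
    rw [abs_le] at h2 ⊢
    constructor <;> linarith [h2.1, h2.2]

end Pool.Agent.H52.G3
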